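import Pool.Agent.Y224.AZ.Stm
import Pool.Agent.H204R3.CM.Alt

set_option autoImplicit false

/-!
# From tensors to alternating forms on the powers
-/

namespace Pool.Agent.Y502.AZ

open Module Pool.Agent.Y224.AZ Equiv

noncomputable section

section

variable {K X Y : Type} [Field K] [AddCommGroup X] [Module K X] [AddCommGroup Y] [Module K Y]

/-- a bilinear form applied to two components of vectors of the power -/
def bil (B : X →ₗ[K] X →ₗ[K] K) {n : ℕ} (a b : Fin n) :
    MultilinearMap K (fun _ : Fin 2 => (Fin n → X)) K where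
  toFun v := B (v 0 a) (v 1 b)
  map_update_add' := by
    intro inst v i x y
    obtain rfl : inst = instDecidableEqFin 2 := Subsingleton.elim _ _
    revert i
    rw [Fin.forall_fin_two]
    constructor <;> simp
  map_update_smul' := by
    intro inst v i c x
    obtain rfl : inst = instDecidableEqFin 2 := Subsingleton.elim _ _
    revert i
    rw [Fin.forall_fin_two]
    constructor <;> simp

theorem bil_apply (B : X →ₗ[K] X →ₗ[K] K) {n : ℕ} (a b : Fin n) (v : Fin 2 → Fin n → X) :
    bil B a b v = B (v 0 a) (v 1 b) := rfl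

theorem altBil_apply (B : X →ₗ[K] X →ₗ[K] K) {n : ℕ} (a b : Fin n) (v : Fin 2 → Fin n → X) :
    MultilinearMap.alternatization (bil B a b) v = B (v 0 a) (v 1 b) - B (v 1 a) (v 0 b) := by
  rw [MultilinearMap.alternatization_apply]
  have h : (Finset.univ : Finset (Perm (Fin 2))) = {1, Equiv.swap 0 1} := by decide
  rw [h, Finset.sum_pair (by decide)]
  simp only [MultilinearMap.domDomCongr_apply, Perm.sign_one, one_smul, bil_apply,
    Perm.coe_one, id_eq, Equiv.swap_apply_left, Equiv.swap_apply_right]
  rw [Perm.sign_swap (by decide)]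
  rw [Units.neg_smul, one_smul, sub_eq_add_neg]

theorem altBil_single (B : X →ₗ[K] X →ₗ[K] K) {n : ℕ} (a b i j : Fin n) (C : Set (X →ₗ[K] X →ₗ[K] K))
    (hB : B ∈ C) :
    ∃ B₁ ∈ Submodule.span K (C ∪ LinearMap.flip '' C), ∀ u v : X,
      MultilinearMap.alternatization (bil B a b) ![(Pi.single i u : Fin n → X), Pi.single j v] =
        B₁ u v := by
  classical
  refine ⟨(if i = a ∧ j = b then B else 0) + (-1 : K) • (if j = a ∧ i = b then B.flip else 0),
    ?_, ?_⟩
  · refine Submodule.add_mem _ ?_ (Submodule.smul_mem _ _ ?_)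
    · split_ifs
      · exact Submodule.subset_span (Or.inl hB)
      · exact Submodule.zero_mem _
    · split_ifs
      · exact Submodule.subset_span (Or.inr ⟨B, hB, rfl⟩)
      · exact Submodule.zero_mem _
  · intro u v
    rw [altBil_apply]
    simp only [Matrix.cons_val_zero, Matrix.cons_val_one]
    have h1 : B ((Pi.single i u : Fin n → X) a) ((Pi.single j v : Fin n → X) b) =
        (if i = a ∧ j = b then B else 0 : X →ₗ[K] X →ₗ[K] K) u v := by
      by_cases hi : i = a
      · by_cases hj : j = b
        · subst hi hj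
          simp
        · rw [if_neg (fun h => hj h.2), Pi.single_eq_of_ne (fun h => hj h.symm)]
          simp
      · rw [if_neg (fun h => hi h.1), Pi.single_eq_of_ne (fun h => hi h.symm)]
        simp
    have h2 : B ((Pi.single j v : Fin n → X) a) ((Pi.single i u : Fin n → X) b) =
        (if j = a ∧ i = b then B.flip else 0 : X →ₗ[K] X →ₗ[K] K) u v := by
      by_cases hi : j = a
      · by_cases hj : i = b
        · subst hi hj
          simp
        · rw [if_neg (fun h => hj h.2), Pi.single_eq_of_ne (i' := b) (fun h => hj h.symm)]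
          simp
      · rw [if_neg (fun h => hi h.1), Pi.single_eq_of_ne (i' := a) (fun h => hi h.symm)]
        simp
    rw [h1, h2, LinearMap.add_apply, LinearMap.add_apply, LinearMap.smul_apply,
      LinearMap.smul_apply, smul_eq_mul]
    ring

end

/-- The alternation of a tensor which is applied to the components `c i`. -/
def altc {K X M : Type} [Field K] [AddCommGroup X] [Module K X] [AddCommGroup M] [Module K M]
    {κ : Type} [Fintype κ] [DecidableEq κ] {n : ℕ} (c : κ → Fin n)
    (T : MultilinearMap K (fun _ : κ => X) M) : (Fin n → X) [⋀^κ]→ₗ[K] M :=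
  MultilinearMap.alternatization (T.compLinearMap fun i => LinearMap.proj (c i))

theorem altc_apply {K X M : Type} [Field K] [AddCommGroup X] [Module K X] [AddCommGroup M]
    [Module K M] {κ : Type} [Fintype κ] [DecidableEq κ] {n : ℕ} (c : κ → Fin n)
    (T : MultilinearMap K (fun _ : κ => X) M) (x : κ → Fin n → X) :
    altc c T x = ∑ σ : Perm κ, ((Perm.sign σ : ℤ) : K) • T (fun i => x (σ i) (c i)) := by
  unfold altc
  rw [MultilinearMap.alternatization_apply]
  refine Finset.sum_congr rfl fun σ _ => ?_
  rw [MultilinearMap.domDomCongr_apply, MultilinearMap.compLinearMap_apply, Units.smul_def,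
    Int.cast_smul_eq_zsmul]
  rfl

theorem t_alt : S_ALT := by
  intro K X Y _ _ _ _ _ _ C ι _ D n m f hf
  classical
  choose T hT hTf using hf
  set S : Set ((Fin n → X) [⋀^Fin m × Fin 2]→ₗ[K] (MultilinearMap K (fun _ : ι => Y) K)) :=
    {g | ∃ B : Fin m → (Fin n → X) [⋀^Fin 2]→ₗ[K] K,
        (∀ l i j, ∃ B₁ ∈ Submodule.span K (C ∪ LinearMap.flip '' C), ∀ u v : X,
          B l ![Pi.single i u, Pi.single j v] = B₁ u v) ∧
        ∃ w ∈ D, ∀ v y, g v y = (∑ σ : Equiv.Perm (Fin m × Fin 2), ((Equiv.Perm.sign σ : ℤ) : K) *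
          ∏ l, B l ![v (σ (l, 0)), v (σ (l, 1))]) * w y} with hS
  -- the form is a sum over the components
  have h1 : (f : MultilinearMap K (fun _ : Fin m × Fin 2 => (Fin n → X))
      (MultilinearMap K (fun _ : ι => Y) K)) =
      ∑ c, (T c).compLinearMap (fun i => LinearMap.proj (c i)) := by
    refine MultilinearMap.ext fun x => ?_
    rw [_root_.sum_apply]
    have hx : x = fun i => ∑ j, (Pi.single j (x i j) : Fin n → X) := by
      funext i
      exact (Finset.univ_sum_single (x i)).symm
    have h2 : f.toMultilinearMap x =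
        ∑ c : Fin m × Fin 2 → Fin n, f.toMultilinearMap
          (fun i => (Pi.single (c i) (x i (c i)) : Fin n → X)) := by
      conv_lhs => rw [hx]
      rw [MultilinearMap.map_sum]
    change f.toMultilinearMap x = _
    rw [h2]
    refine Finset.sum_congr rfl fun c _ => ?_
    refine MultilinearMap.ext fun y => ?_
    rw [MultilinearMap.compLinearMap_apply]
    exact hTf c (fun i => x i (c i)) y
  have h3 : ((Fintype.card (Fin m × Fin 2)).factorial : K) • f = ∑ c, altc c (T c) := by
    have h4 := congrArg MultilinearMap.alternatization h1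
    rw [AlternatingMap.coe_alternatization, map_sum] at h4
    rw [← Nat.cast_smul_eq_nsmul K] at h4
    exact h4
  have hfac : ((Fintype.card (Fin m × Fin 2)).factorial : K) ≠ 0 := by
    exact_mod_cast Nat.factorial_ne_zero _
  rw [← Submodule.smul_mem_iff _ hfac, h3]
  refine Submodule.sum_mem _ fun c _ => ?_
  -- linearity
  have hlin : ∀ T₀ ∈ Submodule.span K {T' : MF K X Y (Fin m × Fin 2) ι |
      ∃ P, IsProd C P ∧ ∃ w ∈ D, ∀ v y, T' v y = P v * w y}, altc c T₀ ∈ Submodule.span K S := by
    intro T₀ hT₀
    induction hT₀ using Submodule.span_induction with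
    | zero =>
      have : altc c (0 : MF K X Y (Fin m × Fin 2) ι) = 0 := by
        refine AlternatingMap.ext fun x => ?_
        rw [altc_apply]
        simp
      rw [this]
      exact Submodule.zero_mem _
    | add a b _ _ ha hb =>
      have : altc c (a + b) = altc c a + altc c b := by
        refine AlternatingMap.ext fun x => ?_
        rw [AlternatingMap.add_apply, altc_apply, altc_apply, altc_apply, ← Finset.sum_add_distrib]
        refine Finset.sum_congr rfl fun σ _ => ?_
        rw [_root_.add_apply, smul_add]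
      rw [this]
      exact Submodule.add_mem _ ha hb
    | smul t a _ ha =>
      have : altc c (t • a) = t • altc c a := by
        refine AlternatingMap.ext fun x => ?_
        rw [AlternatingMap.smul_apply, altc_apply, altc_apply, Finset.smul_sum]
        refine Finset.sum_congr rfl fun σ _ => ?_
        rw [_root_.smul_apply, smul_comm]
      rw [this]
      exact Submodule.smul_mem _ t ha
    | mem T' hT' =>
      obtain ⟨P, ⟨s, B, hB, hP⟩, w, hw, hT'⟩ := hT'
      have hev : ∀ (v : Fin m × Fin 2 → Fin n → X) (y : ι → Y), altc c T' v y =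
          (((Perm.sign s : ℤ) : K) * ((2 : K) ^ m)⁻¹) *
          ((∑ σ : Perm (Fin m × Fin 2), ((Perm.sign σ : ℤ) : K) *
            ∏ l, MultilinearMap.alternatization (bil (B l) (c (s (l, 0))) (c (s (l, 1))))
              ![v (σ (l, 0)), v (σ (l, 1))]) * w y) := by
        intro v y
        have hfun : ∀ (σ : Perm (Fin m × Fin 2)) (l : Fin m),
            (![v (σ (l, 0)), v (σ (l, 1))] : Fin 2 → Fin n → X) = fun ε => v (σ (l, ε)) := by
          intro σ l
          funext ε
          revert ε
          rw [Fin.forall_fin_two]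
          exact ⟨rfl, rfl⟩
        simp_rw [hfun]
        rw [Pool.Agent.H204R3.CM.alt_prod]
        rw [altc_apply, _root_.sum_apply]
        have h5 : ∀ σ : Perm (Fin m × Fin 2),
            (((Perm.sign σ : ℤ) : K) • T' (fun i => v (σ i) (c i))) y =
            ((Perm.sign σ : ℤ) : K) * (∏ l, bil (B l) (c (s (l, 0))) (c (s (l, 1)))
              (fun ε => v (σ (s (l, ε))))) * w y := by
          intro σ
          rw [_root_.smul_apply, hT', hP, smul_eq_mul, mul_assoc]
          rfl
        rw [Finset.sum_congr rfl fun σ _ => h5 σ, ← Finset.sum_mul]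
        have h6 : ∑ σ : Perm (Fin m × Fin 2), ((Perm.sign σ : ℤ) : K) *
            (∏ l, bil (B l) (c (s (l, 0))) (c (s (l, 1))) (fun ε => v (σ (s (l, ε))))) =
            ((Perm.sign s : ℤ) : K) * ∑ σ : Perm (Fin m × Fin 2), ((Perm.sign σ : ℤ) : K) *
            (∏ l, bil (B l) (c (s (l, 0))) (c (s (l, 1))) (fun ε => v (σ (l, ε)))) := by
          rw [Finset.mul_sum]
          refine Fintype.sum_equiv (Equiv.mulRight s) _ _ fun σ => ?_
          rw [Equiv.coe_mulRight, map_mul]
          have h7 : ((Perm.sign s : ℤ) : K) * ((Perm.sign s : ℤ) : K) = 1 := by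
            rw [← Int.cast_mul, ← Units.val_mul, Int.units_mul_self, Units.val_one, Int.cast_one]
          have h8 : (∏ l, bil (B l) (c (s (l, 0))) (c (s (l, 1)))
              (fun ε => v ((σ * s) (l, ε)))) = ∏ l, bil (B l) (c (s (l, 0))) (c (s (l, 1)))
              (fun ε => v (σ (s (l, ε)))) := rfl
          rw [h8, Units.val_mul, Int.cast_mul]
          linear_combination (-(((Perm.sign σ : ℤ) : K) * (∏ l, bil (B l) (c (s (l, 0)))
            (c (s (l, 1))) (fun ε => v (σ (s (l, ε))))))) * h7
        rw [h6]
        have h2m : ((2 : K) ^ m) ≠ 0 := pow_ne_zero _ two_ne_zero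
        field_simp
      have hsm : altc c T' = (((Perm.sign s : ℤ) : K) * ((2 : K) ^ m)⁻¹) •
          ((((Perm.sign s : ℤ) : K) * ((2 : K) ^ m)) • altc c T') := by
        rw [smul_smul]
        have h7 : ((Perm.sign s : ℤ) : K) * ((Perm.sign s : ℤ) : K) = 1 := by
          rw [← Int.cast_mul, ← Units.val_mul, Int.units_mul_self, Units.val_one, Int.cast_one]
        have h2m : ((2 : K) ^ m) ≠ 0 := pow_ne_zero _ two_ne_zero
        have h8 : (((Perm.sign s : ℤ) : K) * ((2 : K) ^ m)⁻¹) *
            (((Perm.sign s : ℤ) : K) * ((2 : K) ^ m)) = 1 := by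
          rw [mul_mul_mul_comm, h7, inv_mul_cancel₀ h2m, one_mul]
        rw [h8, one_smul]
      rw [hsm]
      refine Submodule.smul_mem _ _ (Submodule.subset_span ?_)
      refine ⟨fun l => MultilinearMap.alternatization
        (bil (B l) (c (s (l, 0))) (c (s (l, 1)))), ?_, w, hw, ?_⟩
      · intro l i j
        exact altBil_single (B l) _ _ i j C (hB l)
      · intro v y
        rw [AlternatingMap.smul_apply, _root_.smul_apply, hev, smul_eq_mul, ← mul_assoc]
        have h7 : ((Perm.sign s : ℤ) : K) * ((Perm.sign s : ℤ) : K) = 1 := by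
          rw [← Int.cast_mul, ← Units.val_mul, Int.units_mul_self, Units.val_one, Int.cast_one]
        have h2m : ((2 : K) ^ m) ≠ 0 := pow_ne_zero _ two_ne_zero
        have h8 : (((Perm.sign s : ℤ) : K) * ((2 : K) ^ m)) *
            (((Perm.sign s : ℤ) : K) * ((2 : K) ^ m)⁻¹) = 1 := by
          rw [mul_mul_mul_comm, h7, mul_inv_cancel₀ h2m, one_mul]
        rw [h8, one_mul]
  exact hlin (T c) (hT c)

end

end Pool.Agent.Y502.AZ
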